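import Pool.Agent.N917.AF.All
import Pool.Agent.N917.AF.EUCS
import Pool.Agent.N917.AF.GA
import Pool.Agent.N917.AF.GB
import Pool.Agent.N917.AF.GGA
import Pool.Agent.N917.AF.GGB

/-!
# Anti-Frobenius algebras `S ⊕ M`: two simple factors, mixed components (page MP_9890f7_al)

Definitions (in `Pool/Agent/N917/AF/Stm.lean`, `Stm2.lean`, `Stm3.lean`, `Stm6.lean`):

* `Bim S M`: `M` is an `S`-bimodule, not required to be unital, `b.L s m = s m`, `b.R s m = m s`;
  `b.mul` is the product `(s, m) (s', m') = (s s', s m' + m s')` of `S ⊕ M = S × M`;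
* `AF V mul`: the algebra `V` with the product `mul` is anti-Frobenius;
* `PS n = ∏ Mat_(n i)`; `ee n i` is the matrix unit `E_00` of the factor `i`;
  `mu b i j = dim e_i M e_j` for `i, j ∈ {none, 0, …, m-1}`, `e_i = ee n i`, `e_none = 1 - 1_S`.
-/

set_option autoImplicit false

namespace Pool.Agent.Results.MP_9890f7_al.TwoFactorChains

open Pool.Agent.N917.AF

/-- Classification for `S = Mat_(n 0) × Mat_(n 1)` when the skew part of the multiplicities is a
chain `none - 0 - 1` with single arrows. -/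
theorem result (n : Fin 2 → ℕ) [∀ i, NeZero (n i)] (M : Type) [AddCommGroup M] [Module ℂ M]
    [Module.Finite ℂ M] (b : Bim (PS n) M) :
    ((∀ i j, mu b i j - mu b j i =
        if i = some 0 ∧ (j = none ∨ j = some 1) then 1 else 0) →
      (AF (PS n × M) b.mul ↔ (∀ i, Even (mu b i i)) ∧ Nat.Coprime (n 0) (n 1 + 1))) ∧
    ((∀ i j, mu b i j - mu b j i =
        if (i = some 0 ∧ j = none) ∨ (i = some 1 ∧ j = some 0) then 1 else 0) →
      (AF (PS n × M) b.mul ↔
        (∀ i, Even (mu b i i)) ∧ IsCoprime (n 0 : ℤ) ((n 1 : ℤ) - 1))) := by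
  have hA : S_GA := t_GA t_EUC t_EUCS
  have hB : S_GB := t_GB t_EUC t_CS1 t_CS2 hA
  refine ⟨fun h => ?_, fun h => ?_⟩
  · rw [t_GEN' 2 n M b, t_GGA n (skew (mu b)) (fun i j => h i j), hA]
  · rw [t_GEN' 2 n M b, t_GGB n (skew (mu b)) (fun i j => h i j),
      hB (n 0) (n 1) (Nat.one_le_iff_ne_zero.2 (NeZero.ne (n 0)))]

end Pool.Agent.Results.MP_9890f7_al.TwoFactorChains
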